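import Pool.Agent.W206.YP.Stm

/-! Subtask YP-RL. -/

set_option autoImplicit false

namespace Pool.Agent.W883.YP.RL

open MvPolynomial UpperHalfPlane H294ZP Pool.Agent.W206.CT Pool.Agent.W206.YP

theorem eval_aeval {σ : Type} (x : σ → ℂ) (t u : σ) (F : MvPolynomial (Fin 2) Qb) :
    eval x (aeval ![(X t : MvPolynomial σ ℂ), X u] F : MvPolynomial σ ℂ) =
      aeval ![x t, x u] F := by
  have h1 : (eval x : MvPolynomial σ ℂ →+* ℂ) (aeval ![(X t : MvPolynomial σ ℂ), X u] F) =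
      ((MvPolynomial.aeval x : MvPolynomial σ ℂ →ₐ[ℂ] ℂ).restrictScalars Qb)
        (aeval ![(X t : MvPolynomial σ ℂ), X u] F) := by
    rw [AlgHom.restrictScalars_apply]
    exact (congrArg (fun g : MvPolynomial σ ℂ →+* ℂ =>
      g (aeval ![(X t : MvPolynomial σ ℂ), X u] F)) (MvPolynomial.coe_aeval_eq_eval x)).symm
  rw [h1, ← AlgHom.comp_apply, MvPolynomial.comp_aeval]
  congr 2
  funext i
  fin_cases i <;> simp

theorem isoN_of {z w w' : ℍ} {a b c d a' b' c' d' : ℤ} (hN : 0 < a * d - b * c)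
    (hN' : 0 < a' * d' - b' * c')
    (hw : (w : ℂ) * ((c : ℂ) * (z : ℂ) + (d : ℂ)) = (a : ℂ) * (z : ℂ) + (b : ℂ))
    (hw' : (w' : ℂ) * ((c' : ℂ) * (z : ℂ) + (d' : ℂ)) = (a' : ℂ) * (z : ℂ) + (b' : ℂ)) :
    IsoN ((a * d - b * c) * (a' * d' - b' * c')).toNat (jj w) (jj w') := by
  refine ⟨w', w, a * d' - b * c', b * a' - a * b', c * d' - d * c', d * a' - c * b', ?_, ?_,
    rfl, rfl⟩
  · rw [Int.toNat_of_nonneg (by positivity)]
    ring
  · have h0 := denom_ne (z := z) hN'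
    apply mul_right_cancel₀ h0
    push_cast
    linear_combination ((w : ℂ) * (c * d' - d * c') - (a * d' - b * c')) * hw' +
      ((a' : ℂ) * d' - b' * c') * hw

theorem back (hPN : S_PN) (hCM : S_CMA) {σ : Type} [Fintype σ]
    (Q : Ideal (MvPolynomial σ ℂ)) (hQ : IV (ZL Q) = Q) (r s : ℕ)
    (hrs : r + s = Fintype.card σ) (Z : Datum σ r) (hZ : ZL Q ⊆ ZL (IV Z.locus)) :
    ∃ T : Finset σ, T.card = s ∧ RelI Q T := by
  classical
  have hle : ∀ f, (∀ x ∈ Z.locus, eval x f = 0) → f ∈ Q := by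
    intro f hf
    rw [← hQ]
    intro x hx
    exact hZ hx f hf
  choose ι hι using Z.surj
  have hinj : Function.Injective ι := by
    intro l l' h
    have h1 := hι l
    rw [h, hι l'] at h1
    exact (Option.some_inj.1 h1).symm
  refine ⟨(Finset.univ.image ι)ᶜ, ?_, ?_⟩
  · rw [Finset.card_compl, Finset.card_image_of_injective _ hinj, Finset.card_univ, Fintype.card_fin]
    omega
  · intro t _
    rcases hcl : Z.cls t with _ | l
    · left
      obtain ⟨c, hc⟩ := hCM.1 (jj (Z.pt t)) ⟨Z.pt t, Z.cm t, rfl⟩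
      refine ⟨c, ?_, hle _ ?_⟩
      · rw [hc]; exact ⟨Z.pt t, Z.cm t, rfl⟩
      · rintro x ⟨z, hz⟩
        rw [map_sub, eval_X, eval_C, (hz t).1 hcl, hc, sub_self]
    · right
      refine ⟨ι l, by simp, ?_⟩
      have d1 := Z.det_pos t
      have d2 := Z.det_pos (ι l)
      rw [Matrix.det_fin_two] at d1 d2
      set N : ℕ := ((Z.mat t 0 0 * Z.mat t 1 1 - Z.mat t 0 1 * Z.mat t 1 0) *
        (Z.mat (ι l) 0 0 * Z.mat (ι l) 1 1 - Z.mat (ι l) 0 1 * Z.mat (ι l) 1 0)).toNat with hN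
      have hN0 : 0 < N := by
        rw [hN]
        have := mul_pos d1 d2
        omega
      obtain ⟨F, hF0, hF⟩ := hPN N hN0
      refine ⟨F, ⟨N, hN0, hF⟩, hle _ ?_⟩
      rintro x ⟨z, hz⟩
      rw [eval_aeval, hF]
      obtain ⟨w, hw, hxw⟩ := (hz t).2 l hcl
      obtain ⟨w', hw', hxw'⟩ := (hz (ι l)).2 l (hι l)
      rw [hxw, hxw']
      exact isoN_of d1 d2 hw hw'

/-- the choices for one coordinate -/
theorem coord (hTF : TF) (hTR : S_TRN) (hCM0 : ∃ τ : ℍ, IsCM τ) {σ : Type}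
    (Q : Ideal (MvPolynomial σ ℂ)) (T : Finset σ) (hT : RelI Q T) (i : σ) :
    ∃ (cl : Option {u // u ∉ T}) (P : ℍ) (M : Finset (Matrix (Fin 2) (Fin 2) ℤ)),
      IsCM P ∧ (∀ m ∈ M, 0 < m.det) ∧ M.Nonempty ∧ (∀ h : i ∉ T, cl = some ⟨i, h⟩) ∧
      ∀ x ∈ ZL Q, ∀ z : σ → ℍ, (∀ u, jj (z u) = x u) →
        (cl = none → x i = jj P) ∧ ∀ u, cl = some u → ∃ m ∈ M, ∃ w : ℍ,
          (w : ℂ) * ((m 1 0 : ℂ) * (z u : ℂ) + (m 1 1 : ℂ)) =
            (m 0 0 : ℂ) * (z u : ℂ) + (m 0 1 : ℂ) ∧ x i = jj w := by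
  classical
  obtain ⟨τ0, hτ0⟩ := hCM0
  by_cases hi : i ∈ T
  · rcases hT i hi with ⟨c, ⟨τ, hτ, hcτ⟩, hc⟩ | ⟨u, hu, F, ⟨N, hN, hF⟩, hFQ⟩
    · refine ⟨none, τ, {1}, hτ, by simp, by simp, fun h => absurd hi h, fun x hx z hz => ?_⟩
      refine ⟨fun _ => ?_, fun u hu => by simp at hu⟩
      have h1 := hx _ hc
      rw [map_sub, eval_X, eval_C, sub_eq_zero] at h1
      rw [h1, hcτ]
    · obtain ⟨κ, _, _, a, d, b, h, h1, h2, -, h4⟩ := hTF N hN
      let mt : κ → Matrix (Fin 2) (Fin 2) ℤ := fun k => !![(a k : ℤ), b k; 0, (d k : ℤ)]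
      have hne : (Finset.univ.image mt).Nonempty := by
        obtain ⟨k, -⟩ := h4 N 0 0 1 (by ring) τ0
          (⟨(N : ℂ) * τ0, by
            have h5 : 0 < (τ0 : ℂ).im := τ0.im_pos
            have h6 : (0 : ℝ) < N := by exact_mod_cast hN
            simp only [Complex.mul_im, Complex.natCast_re, Complex.natCast_im, zero_mul, add_zero]
            exact mul_pos h6 h5⟩ : ℍ) (by push_cast; change (N : ℂ) * τ0 * _ = _; ring)
        exact ⟨mt k, Finset.mem_image_of_mem _ (Finset.mem_univ _)⟩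
      refine ⟨some ⟨u, hu⟩, τ0, Finset.univ.image mt, hτ0, ?_, hne, fun h => absurd hi h,
        fun x hx z hz => ⟨fun h => by simp at h, fun u' hu' => ?_⟩⟩
      · intro m hm
        obtain ⟨k, -, rfl⟩ := Finset.mem_image.1 hm
        obtain ⟨p1, p2, -⟩ := h1 k
        rw [Matrix.det_fin_two]
        simp only [mt, Matrix.of_apply, Matrix.cons_val', Matrix.cons_val_zero,
          Matrix.cons_val_one, Matrix.cons_val_fin_one, mul_zero, sub_zero]
        positivity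
      · obtain rfl : u' = ⟨u, hu⟩ := (Option.some_inj.1 hu').symm
        have h5 := hx _ hFQ
        rw [eval_aeval, hF] at h5
        obtain ⟨τ, w, p, q, r', s', hdet, hw, hxi, hxu⟩ := h5
        have h6 : jj (z u) = jj τ := by rw [hz u, hxu]
        have hdpos : 0 < p * s' - q * r' := by rw [hdet]; exact_mod_cast hN
        obtain ⟨w2, p2, q2, r2, s2, hdet2, hw2, hjw⟩ := hTR.1 (z u) τ w p q r' s' h6 hdpos hw
        obtain ⟨k, hk⟩ := h4 p2 q2 r2 s2 (by rw [hdet2, hdet]) (z u) w2 hw2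
        refine ⟨mt k, Finset.mem_image_of_mem _ (Finset.mem_univ _), h k (z u), ?_, ?_⟩
        · have h7 := h2 k (z u)
          simp only [mt, Matrix.of_apply, Matrix.cons_val', Matrix.cons_val_zero,
            Matrix.cons_val_one, Matrix.cons_val_fin_one]
          push_cast
          rw [zero_mul, zero_add]
          exact h7
        · rw [hxi, ← hjw, hk]
  · refine ⟨some ⟨i, hi⟩, τ0, {1}, hτ0, by simp, by simp, fun h => rfl,
      fun x hx z hz => ⟨fun h => by simp at h, fun u hu => ?_⟩⟩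
    obtain rfl : u = ⟨i, hi⟩ := (Option.some_inj.1 hu).symm
    refine ⟨1, by simp, z i, by simp, (hz i).symm⟩

theorem forth (hTF : TF) (hSJ : S_SURJ) (hTR : S_TRN) (hCM0 : ∃ τ : ℍ, IsCM τ) {σ : Type}
    [Fintype σ] (Q : Ideal (MvPolynomial σ ℂ)) (hP : Q.IsPrime) (hQ : IV (ZL Q) = Q)
    (T : Finset σ) (hT : RelI Q T) :
    ∃ (r : ℕ) (Z : Datum σ r), r + T.card = Fintype.card σ ∧ ZL Q ⊆ ZL (IV Z.locus) := by
  classical
  choose cl P M hP1 hP2 hP3 hP4 hP5 using coord hTF hTR hCM0 Q T hT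
  let e := Fintype.equivFin {u // u ∉ T}
  set r := Fintype.card {u // u ∉ T} with hr
  have hcard : r + T.card = Fintype.card σ := by
    have h1 : r = (Tᶜ).card := by
      rw [hr]
      exact Fintype.card_of_subtype Tᶜ (fun x => by simp)
    rw [h1, Finset.card_compl]
    have := Finset.card_le_univ T
    omega
  let cls : σ → Option (Fin r) := fun i => (cl i).map e
  have hcls : ∀ i l, cls i = some l ↔ cl i = some (e.symm l) := by
    intro i l
    simp only [cls, Option.map_eq_some_iff]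
    constructor
    · rintro ⟨a, ha, rfl⟩
      rw [ha, Equiv.symm_apply_apply]
    · intro h
      exact ⟨_, h, Equiv.apply_symm_apply _ _⟩
  have hclsn : ∀ i, cls i = none ↔ cl i = none := by
    intro i
    simp [cls]
  let Lo : (σ → Matrix (Fin 2) (Fin 2) ℤ) → Set (σ → ℂ) := fun φ =>
    {x | ∃ z : Fin r → ℍ, ∀ i, (cls i = none → x i = jj (P i)) ∧
      ∀ l, cls i = some l → ∃ w : ℍ,
        (w : ℂ) * ((φ i 1 0 : ℂ) * (z l : ℂ) + (φ i 1 1 : ℂ)) =
          (φ i 0 0 : ℂ) * (z l : ℂ) + (φ i 0 1 : ℂ) ∧ x i = jj w}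
  have hcov : ∀ x ∈ ZL Q, ∃ φ ∈ Fintype.piFinset M, x ∈ Lo φ := by
    intro x hx
    choose z hz using hSJ
    have h5 := fun i => hP5 i x hx (fun u => z (x u)) (fun u => hz (x u))
    have h6 : ∀ i, ∃ m ∈ M i, ∀ u, cl i = some u → ∃ w : ℍ,
          (w : ℂ) * ((m 1 0 : ℂ) * (z (x u) : ℂ) + (m 1 1 : ℂ)) =
            (m 0 0 : ℂ) * (z (x u) : ℂ) + (m 0 1 : ℂ) ∧ x i = jj w := by
      intro i
      rcases h : cl i with _ | u
      · obtain ⟨m, hm⟩ := hP3 i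
        exact ⟨m, hm, fun u hu => by simp at hu⟩
      · obtain ⟨m, hm, w, hw⟩ := (h5 i).2 u h
        refine ⟨m, hm, fun u' hu' => ?_⟩
        obtain rfl : u' = u := (Option.some_inj.1 hu').symm
        exact ⟨w, hw⟩
    choose φ hφ1 hφ2 using h6
    refine ⟨φ, Fintype.mem_piFinset.2 hφ1, fun l => z (x (e.symm l)), fun i => ⟨fun h => ?_,
      fun l hl => ?_⟩⟩
    · exact (h5 i).1 ((hclsn i).1 h)
    · exact hφ2 i _ ((hcls i l).1 hl)
  have hinf : (Fintype.piFinset M).inf (fun φ => IV (Lo φ)) ≤ Q := by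
    intro f hf
    rw [← hQ]
    intro x hx
    obtain ⟨φ, hφ, hxφ⟩ := hcov x hx
    have h1 : (Fintype.piFinset M).inf (fun φ => IV (Lo φ)) ≤ IV (Lo φ) := Finset.inf_le hφ
    exact h1 hf x hxφ
  obtain ⟨φ, hφ, hφQ⟩ := hP.inf_le'.1 hinf
  have hφ' := Fintype.mem_piFinset.1 hφ
  refine ⟨r, ⟨cls, ?_, φ, fun i => hP2 i _ (hφ' i), P, hP1⟩, hcard, ?_⟩
  · intro l
    refine ⟨(e.symm l).1, ?_⟩
    rw [hcls, hP4 _ (e.symm l).2]
  · intro x hx f hf
    exact hx f (hφQ hf)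

theorem main : S_SURJ → S_PN → S_TRN → S_CMA → S_EQV → S_RL := by
  intro hSJ hPN hTR hCM _ _ _ _ σ _ Q hP hQ s
  have hTF : TF := TF676.tf inv_jj
  have hCM0 : ∃ τ : ℍ, IsCM τ := by
    obtain ⟨τ, hτ, -⟩ := hCM.2
    exact ⟨τ, hτ⟩
  constructor
  · rintro ⟨T, rfl, hT⟩
    obtain ⟨r, Z, hr, hZ⟩ := forth hTF hSJ hTR hCM0 Q hP hQ T hT
    exact ⟨r, _, hr, ⟨Z, rfl⟩, hZ⟩
  · rintro ⟨r, S, hrs, ⟨Z, rfl⟩, hZ⟩
    exact back hPN hCM Q hQ r s hrs Z hZ

end Pool.Agent.W883.YP.RL
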